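import Pool.Agent.Y485.HS.Stm

/-! Chain rule and null sets for local actions by Sobolev homeomorphisms. -/

set_option autoImplicit false

open MeasureTheory Set Metric Filter Topology
open scoped ENNReal NNReal

namespace Pool.Agent.Y232.HS

open Pool.Agent.Y485.HS

lemma ball_two_sub {n : ℕ} {x : E n} (hx : x ∈ ball (0 : E n) 2) : x ∈ BB n := by
  have := mem_ball.1 hx
  exact mem_closedBall.2 (by linarith)

lemma ball_three_sub {n : ℕ} {x : E n} (hx : x ∈ ball (0 : E n) 3) : x ∈ BB n := by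
  have := mem_ball.1 hx
  exact mem_closedBall.2 (by linarith)

lemma meas_BB (n : ℕ) : MeasurableSet (BB n) := measurableSet_closedBall

/-- preimages under maps which are continuous on the ball -/
lemma meas_pre {n : ℕ} {S : E n → E n} (hS : ContinuousOn S (BB n)) {A : Set (E n)}
    (hA : MeasurableSet A) : MeasurableSet {z | z ∈ BB n ∧ S z ∈ A} := by
  have h1 : Continuous ((BB n).domRestrict S) := continuousOn_iff_continuous_domRestrict.1 hS
  have h2 := (meas_BB n).subtype_image (h1.measurable hA)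
  convert h2 using 1
  ext z
  simp only [mem_ofPred_eq, mem_image, mem_preimage, Subtype.exists,
    exists_and_right, exists_eq_right]
  exact ⟨fun h => ⟨h.1, h.2⟩, fun ⟨h, h'⟩ => ⟨h, h'⟩⟩

lemma null_of_ae {n : ℕ} {A : Set (E n)} (hA : MeasurableSet A) {p : E n → Prop}
    (h : ∀ᵐ x ∂(volume.restrict A), p x) : volume {x | x ∈ A ∧ ¬ p x} = 0 := by
  rw [ae_restrict_iff' hA] at h
  have h' := ae_iff.1 h
  simpa only [Classical.not_imp] using h'

theorem chain : S_DS → S_UD → S_CHAIN := by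
  intro hDS hUD n hn H _ _ T hT hen F g D hF hD k hk
  obtain ⟨m, gS, gSm, gSh, gSf⟩ := hen k⁻¹
  obtain ⟨S, hSdef⟩ : ∃ S : E n → E n, S = T k⁻¹ := ⟨_, rfl⟩
  rw [← hSdef] at gSh
  have hScont : ContinuousOn S (BB n) := by
    rw [hSdef]
    have h1 : ContinuousOn (fun x : E n => ((k⁻¹, x) : H × E n)) (BB n) := by fun_prop
    exact hT.cont.comp h1 (fun x hx => ⟨mem_univ _, hx⟩)
  have hNear : Near S gS :=
    { cont := hScont
      disp := by rw [hSdef]; exact hT.disp k⁻¹
      meas := gSm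
      haj := gSh
      fin := lt_of_le_of_lt gSf (ENNReal.natCast_lt_top m) }
  obtain ⟨DS, hDSder, hDSm⟩ := hDS n hn S gS hNear
  -- the only preimage
  have hfact : ∀ w ∈ BB n, S w ∈ BB n → T k (S w) = w := by
    intro w hw hSw
    have h1 := hT.mul k k⁻¹ w hw (by rw [← hSdef]; exact hSw)
    rw [mul_inv_cancel, hT.one w hw, ← hSdef] at h1
    exact h1.symm
  have main : ∀ N : Set (E n), volume N = 0 → ∀ᵐ x ∂(volume.restrict (ball (0 : E n) 2)),
      x ∈ ball (0 : E n) 2 ∧ T k x ∉ N ∧ T k x ∈ ball (0 : E n) 3 ∧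
      ADer gS S (T k x) (DS (T k x)) ∧ 0 < (DS (T k x)).det ∧ S (T k x) = x := by
    intro N hN
    have hmem : ∀ᵐ x ∂(volume.restrict (ball (0 : E n) 2)), x ∈ ball (0 : E n) 2 :=
      ae_restrict_mem measurableSet_ball
    filter_upwards [hDSm N hN, hmem] with x hx hx2
    obtain ⟨P, hP, hsum⟩ := hx
    have huniq : ∀ w ∈ P, T k x = w := by
      intro w hw
      obtain ⟨h1, -, -, -, h5⟩ := (hP w).1 hw
      have h6 := hfact w (ball_three_sub h1) (by rw [h5]; exact ball_two_sub hx2)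
      rw [h5] at h6
      exact h6
    have hne : P.Nonempty := by
      rw [Finset.nonempty_iff_ne_empty]
      rintro rfl
      simp at hsum
    obtain ⟨w, hw⟩ := hne
    have hw' := huniq w hw
    have hPs : P = {w} := by
      ext y
      rw [Finset.mem_singleton]
      constructor
      · intro hy
        rw [← huniq y hy, ← hw']
      · rintro rfl
        exact hw
    rw [hPs, Finset.sum_singleton] at hsum
    have hsg : SignType.sign (DS w).det = 1 := by
      rcases h : SignType.sign (DS w).det with _ | _ | _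
      · rw [h] at hsum; simp at hsum
      · rw [h] at hsum; simp at hsum
      · rfl
    obtain ⟨h1, h2, h3, h4, h5⟩ := (hP w).1 hw
    rw [hw']
    exact ⟨hx2, h2, h1, h3, sign_eq_one_iff.1 hsg, h5⟩
  refine ⟨fun N hN => ?_, ?_⟩
  · have h1 := main N hN
    have h2 := null_of_ae measurableSet_ball
      (h1.mono fun x hx => (hx.2.1 : ¬ (T k x ∈ N)))
    simpa only [not_not] using h2
  · obtain ⟨W, hW⟩ : ∃ W : ℕ → ℕ → ℕ → Set (E n), W = fun (a b c : ℕ) =>
        {z | z ∈ BB n ∧ gS z ≤ (a : ℝ≥0∞) ∧ S z ∈ BB n ∧ g (S z) ≤ (b : ℝ≥0∞) ∧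
          g z ≤ (c : ℝ≥0∞)} := ⟨_, rfl⟩
    have hWm : ∀ a b c, MeasurableSet (W a b c) := by
      intro a b c
      have h1 := meas_pre hScont ((meas_BB n).inter (hF.meas (measurableSet_Iic (a := (b : ℝ≥0∞)))))
      have h2 : MeasurableSet {z | gS z ≤ (a : ℝ≥0∞)} := gSm measurableSet_Iic
      have h3 : MeasurableSet {z | g z ≤ (c : ℝ≥0∞)} := hF.meas measurableSet_Iic
      have h4 := (h1.inter h2).inter h3
      convert h4 using 1
      rw [hW]
      ext z
      simp only [mem_ofPred_eq, mem_inter_iff, mem_preimage, mem_Iic]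
      tauto
    obtain ⟨N, hN⟩ : ∃ N : Set (E n), N = {z | z ∈ BB n ∧ ¬ ADer g F z (D z)} ∪
        ⋃ p : ℕ × ℕ × ℕ, {z | z ∈ W p.1 p.2.1 p.2.2 ∧
          ¬ UniqueDiffWithinAt ℝ (W p.1 p.2.1 p.2.2) z} := ⟨_, rfl⟩
    have hN0 : volume N = 0 := by
      rw [hN, measure_union_null_iff]
      refine ⟨null_of_ae (meas_BB n) hD.der, ?_⟩
      rw [measure_iUnion_null_iff]
      intro p
      exact null_of_ae (hWm _ _ _) (hUD n _ (hWm _ _ _))
    have h1 := main N hN0
    have h2 : ∀ᵐ x ∂(volume.restrict (ball (0 : E n) 2)), ADer g F x (D x) → (D x).det ≠ 0 →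
        (ADer g F (T k x) (D (T k x)) ∧ 0 < (D x).det * (D (T k x)).det) := by
      filter_upwards [h1] with x hx hAx hdet
      obtain ⟨hx2, hwN, hw3, hwS, hwpos, hSw⟩ := hx
      obtain ⟨w, hwdef⟩ : ∃ w, w = T k x := ⟨_, rfl⟩
      rw [← hwdef] at hwN hw3 hwS hwpos hSw ⊢
      have hwBB := ball_three_sub hw3
      have hxBB := ball_two_sub hx2
      have hAw : ADer g F w (D w) := by
        by_contra hc
        exact hwN (by rw [hN]; exact Or.inl ⟨hwBB, hc⟩)
      refine ⟨hAw, ?_⟩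
      obtain ⟨a, ha⟩ := ENNReal.exists_nat_gt hwS.2.1.ne
      obtain ⟨b, hb⟩ := ENNReal.exists_nat_gt hAx.2.1.ne
      obtain ⟨c, hc⟩ := ENNReal.exists_nat_gt hAw.2.1.ne
      have hwW : w ∈ W a b c := by
        rw [hW]
        exact ⟨hwBB, ha.le, by rw [hSw]; exact hxBB, by rw [hSw]; exact hb.le, hc.le⟩
      have hu : UniqueDiffWithinAt ℝ (W a b c) w := by
        by_contra hcon
        refine hwN ?_
        rw [hN]
        exact Or.inr (mem_iUnion.2 ⟨(a, b, c), hwW, hcon⟩)
      have d1 : HasFDerivWithinAt S (DS w) (W a b c) w :=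
        (hwS.2.2 a ha.le).mono (by rw [hW]; exact fun z hz => ⟨hz.1, hz.2.1⟩)
      have d2 : HasFDerivWithinAt F (D x) {z | z ∈ BB n ∧ g z ≤ b} (S w) := by
        rw [hSw]
        exact hAx.2.2 b hb.le
      have d3 : HasFDerivWithinAt (F ∘ S) ((D x).comp (DS w)) (W a b c) w :=
        d2.comp w d1 (by rw [hW]; exact fun z hz => ⟨hz.2.2.1, hz.2.2.2.1⟩)
      have heq : ∀ z ∈ W a b c, F z = (F ∘ S) z := by
        intro z hz
        rw [hW] at hz
        have h3 := hfact z hz.1 hz.2.2.1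
        have h4 := hk (S z) hz.2.2.1 (by rw [h3]; exact hz.1)
        rw [h3] at h4
        exact h4
      have d4 : HasFDerivWithinAt F ((D x).comp (DS w)) (W a b c) w :=
        d3.congr heq (heq w hwW)
      have d5 : HasFDerivWithinAt F (D w) (W a b c) w :=
        (hAw.2.2 c hc.le).mono (by rw [hW]; exact fun z hz => ⟨hz.1, hz.2.2.2.2⟩)
      have d6 : D w = (D x).comp (DS w) := hu.eq d5 d4
      have d7 : (D w).det = (D x).det * (DS w).det := by
        rw [d6]
        exact LinearMap.det_comp _ _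
      rw [d7, ← mul_assoc]
      exact mul_pos (mul_self_pos.2 hdet) hwpos
    have h3 := null_of_ae measurableSet_ball h2
    refine measure_mono_null ?_ h3
    rintro x ⟨hx, hA, hd, hc⟩
    exact ⟨hx, fun h => hc (h hA hd)⟩

end Pool.Agent.Y232.HS
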